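import Pool.Agent.H301X.BG.Stmts

/-! Task TaskAvg of the project H301-BG (helper138). -/

set_option autoImplicit false

open MeasureTheory Topology Filter Set Metric
open scoped ENNReal NNReal ContDiff

namespace Pool.Agent.H301X.BG

theorem taskAvg : TaskAvg := by
  intro hMV n S V Ω T R A f T' hΩ hVΩ hf hS hV hR hT0 hTd hTV hinj hder hcont hsec
  set B : Set ℂ := ball 0 R with hB
  have hBm : MeasurableSet B := measurableSet_ball
  have hBo : IsOpen B := isOpen_ball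
  have h0B : (0 : ℂ) ∈ B := mem_ball_self hR
  have hfc : ContinuousOn f Ω := hf.continuousOn
  have hgc : ContinuousOn (fun z => ‖f z‖ₑ ^ 2) Ω := (ENNReal.continuous_pow 2).comp_continuousOn hfc.enorm
  set Φ : ℂ × (Fin n → ℂ) → ℂ × (Fin n → ℂ) := fun x => (x.1, T x.1 x.2) with hΦ
  set G : Set (ℂ × (Fin n → ℂ)) := Φ '' (B ×ˢ S) with hG
  have hBS : MeasurableSet (B ×ˢ S) := hBm.prod hS
  have hΦc : ContinuousOn Φ (B ×ˢ S) := continuousOn_fst.prodMk hcont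
  have hΦi : InjOn Φ (B ×ˢ S) := by
    rintro ⟨ζ, q⟩ ⟨h1, h2⟩ ⟨ζ', q'⟩ ⟨h3, h4⟩ h
    simp only [hΦ, Prod.mk.injEq] at h
    obtain ⟨rfl, h⟩ := h
    exact Prod.ext rfl (hinj ζ h1 h2 h4 h)
  have hGm : MeasurableSet G := hBS.image_of_continuousOn_injOn hΦc hΦi
  have hmemG : ∀ ζ z, (ζ, z) ∈ G ↔ ζ ∈ B ∧ ∃ q ∈ S, T ζ q = z := by
    intro ζ z
    constructor
    · rintro ⟨⟨ζ', q⟩, ⟨h1, h2⟩, h3⟩
      simp only [hΦ, Prod.mk.injEq] at h3
      obtain ⟨rfl, h3⟩ := h3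
      exact ⟨h1, q, h2, h3⟩
    · rintro ⟨h1, q, h2, h3⟩
      exact ⟨(ζ, q), ⟨h1, h2⟩, by simp only [hΦ, h3]⟩
  have hGV : ∀ ζ z, (ζ, z) ∈ G → z ∈ V := by
    intro ζ z h
    obtain ⟨h1, q, h2, rfl⟩ := (hmemG ζ z).mp h
    exact hTV q h2 ζ h1
  -- Step 1: the mean value inequality for fixed `q`
  have hvol : volume B = ENNReal.ofReal (Real.pi * R ^ 2) := by
    rw [hB, Complex.volume_ball]
    rw [ENNReal.ofReal_mul Real.pi_pos.le, ENNReal.ofReal_pow hR.le, mul_comm]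
    congr 1
    rw [← NNReal.coe_real_pi, ENNReal.ofReal_coe_nnreal]
  have h1 : ∀ q ∈ S, ‖f q‖ₑ ^ 2 * volume B ≤ ∫⁻ ζ in B, ‖f (T ζ q)‖ₑ ^ 2 := by
    intro q hq
    have hd : DifferentiableOn ℂ (fun ζ => f (T ζ q)) (ball 0 R) :=
      hf.comp (hTd q hq) (fun ζ hζ => hVΩ (hTV q hq ζ hζ))
    have := hMV ℂ volume 0 R (fun ζ => f (T ζ q)) hR hd
    simpa only [hT0 q hq] using this
  have h2 : ∫⁻ q in S, ‖f q‖ₑ ^ 2 * volume B ≤ ∫⁻ q in S, ∫⁻ ζ in B, ‖f (T ζ q)‖ₑ ^ 2 :=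
    setLIntegral_mono' hS h1
  have haem : AEMeasurable (Function.uncurry (fun (q : Fin n → ℂ) (ζ : ℂ) => ‖f (T ζ q)‖ₑ ^ 2))
      ((volume.restrict S).prod (volume.restrict B)) := by
    rw [Measure.prod_restrict]
    apply ContinuousOn.aemeasurable _ (hS.prod hBm)
    have e1 : ContinuousOn (fun x : (Fin n → ℂ) × ℂ => T x.2 x.1) (S ×ˢ B) :=
      hcont.comp (f := fun x : (Fin n → ℂ) × ℂ => (x.2, x.1))
        (continuous_swap.continuousOn) (fun x hx => ⟨hx.2, hx.1⟩)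
    exact hgc.comp e1 (fun x hx => hVΩ (hTV x.1 hx.1 x.2 hx.2))
  have h3 : ∫⁻ q in S, ∫⁻ ζ in B, ‖f (T ζ q)‖ₑ ^ 2 =
      ∫⁻ ζ in B, ∫⁻ q in S, ‖f (T ζ q)‖ₑ ^ 2 := lintegral_lintegral_swap haem
  -- Step 2: change of variables for fixed `ζ`
  have h4 : ∀ ζ ∈ B, ∫⁻ q in S, ‖f (T ζ q)‖ₑ ^ 2 ≤
      2 * ∫⁻ z, G.indicator (fun x => ‖f x.2‖ₑ ^ 2) (ζ, z) := by
    intro ζ hζ
    have e0 : T ζ '' S = {z | (ζ, z) ∈ G} := by
      ext z
      rw [Set.mem_ofPred_eq, hmemG]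
      constructor
      · rintro ⟨q, h5, h6⟩; exact ⟨hζ, q, h5, h6⟩
      · rintro ⟨_, q, h5, h6⟩; exact ⟨q, h5, h6⟩
    have e1 : MeasurableSet (T ζ '' S) := by
      rw [e0]
      exact measurable_prodMk_left hGm
    have e2 := lintegral_image_eq_lintegral_abs_det_fderiv_mul volume hS
      (fun q hq => (hder ζ hζ q hq).1) (hinj ζ hζ) (fun z => ‖f z‖ₑ ^ 2)
    have e3 : ∫⁻ z in T ζ '' S, ‖f z‖ₑ ^ 2 = ∫⁻ z, G.indicator (fun x => ‖f x.2‖ₑ ^ 2) (ζ, z) := by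
      rw [← lintegral_indicator e1]
      apply lintegral_congr
      intro z
      by_cases hz : (ζ, z) ∈ G
      · rw [Set.indicator_of_mem hz, Set.indicator_of_mem (by rw [e0]; exact hz)]
      · rw [Set.indicator_of_notMem hz, Set.indicator_of_notMem (by rw [e0]; exact hz)]
    rw [← e3, e2, ← lintegral_const_mul' _ _ (by norm_num : (2 : ℝ≥0∞) ≠ ⊤)]
    apply setLIntegral_mono' hS
    intro q hq
    have e4 : (1 : ℝ≥0∞) ≤ 2 * ENNReal.ofReal |(T' ζ q).det| := by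
      have e5 : (1 : ℝ≥0∞) = ENNReal.ofReal (2 * (1 / 2)) := by norm_num
      have e6 : (2 : ℝ≥0∞) = ENNReal.ofReal 2 := by norm_num
      rw [e5, e6, ← ENNReal.ofReal_mul (by norm_num)]
      apply ENNReal.ofReal_le_ofReal
      have := (hder ζ hζ q hq).2
      linarith
    calc ‖f (T ζ q)‖ₑ ^ 2 = 1 * ‖f (T ζ q)‖ₑ ^ 2 := (one_mul _).symm
      _ ≤ (2 * ENNReal.ofReal |(T' ζ q).det|) * ‖f (T ζ q)‖ₑ ^ 2 := by gcongr
      _ = 2 * (ENNReal.ofReal |(T' ζ q).det| * ‖f (T ζ q)‖ₑ ^ 2) := mul_assoc _ _ _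
  have h5 : ∫⁻ ζ in B, ∫⁻ q in S, ‖f (T ζ q)‖ₑ ^ 2 ≤
      2 * ∫⁻ ζ in B, ∫⁻ z, G.indicator (fun x => ‖f x.2‖ₑ ^ 2) (ζ, z) := by
    rw [← lintegral_const_mul' _ _ (by norm_num : (2 : ℝ≥0∞) ≠ ⊤)]
    exact setLIntegral_mono' hBm h4
  -- Step 3: Tonelli
  have haem2 : AEMeasurable (G.indicator (fun x : ℂ × (Fin n → ℂ) => ‖f x.2‖ₑ ^ 2))
      ((volume.restrict B).prod volume) := by
    rw [aemeasurable_indicator_iff hGm]
    apply ContinuousOn.aemeasurable _ hGm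
    exact hgc.comp continuousOn_snd (fun x hx => hVΩ (hGV x.1 x.2 hx))
  have h6 : ∫⁻ ζ in B, ∫⁻ z, G.indicator (fun x => ‖f x.2‖ₑ ^ 2) (ζ, z) =
      ∫⁻ z, ∫⁻ ζ in B, G.indicator (fun x => ‖f x.2‖ₑ ^ 2) (ζ, z) :=
    lintegral_lintegral_swap (f := fun (ζ : ℂ) (z : Fin n → ℂ) =>
      G.indicator (fun x : ℂ × (Fin n → ℂ) => ‖f x.2‖ₑ ^ 2) (ζ, z)) haem2
  have h7 : ∀ z, ∫⁻ ζ in B, G.indicator (fun x => ‖f x.2‖ₑ ^ 2) (ζ, z) ≤
      V.indicator (fun z => A * ‖f z‖ₑ ^ 2) z := by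
    intro z
    by_cases hz : z ∈ V
    · rw [Set.indicator_of_mem hz]
      have e1 : {ζ : ℂ | ζ ∈ B ∧ ∃ q ∈ S, T ζ q = z} = {ζ | (ζ, z) ∈ G} := by
        ext ζ
        rw [Set.mem_ofPred_eq, Set.mem_ofPred_eq, hmemG]
      have e2 : MeasurableSet {ζ : ℂ | (ζ, z) ∈ G} := measurable_prodMk_right hGm
      have e3 := hsec z (by rw [e1]; exact e2)
      rw [e1] at e3
      calc ∫⁻ ζ in B, G.indicator (fun x => ‖f x.2‖ₑ ^ 2) (ζ, z)
          ≤ ∫⁻ ζ, G.indicator (fun x => ‖f x.2‖ₑ ^ 2) (ζ, z) := setLIntegral_le_lintegral _ _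
        _ = ∫⁻ ζ, {ζ : ℂ | (ζ, z) ∈ G}.indicator (fun _ => ‖f z‖ₑ ^ 2) ζ := by
            apply lintegral_congr
            intro ζ
            by_cases hζ : (ζ, z) ∈ G
            · rw [Set.indicator_of_mem hζ, Set.indicator_of_mem (by exact hζ)]
            · rw [Set.indicator_of_notMem hζ, Set.indicator_of_notMem (by exact hζ)]
        _ = ‖f z‖ₑ ^ 2 * volume {ζ : ℂ | (ζ, z) ∈ G} := lintegral_indicator_const e2 _
        _ ≤ ‖f z‖ₑ ^ 2 * A := by gcongr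
        _ = A * ‖f z‖ₑ ^ 2 := mul_comm _ _
    · rw [Set.indicator_of_notMem hz]
      apply le_of_eq
      rw [lintegral_eq_zero_iff']
      · filter_upwards with ζ
        have : (ζ, z) ∉ G := fun h => hz (hGV ζ z h)
        rw [Set.indicator_of_notMem this]
        rfl
      · have : (fun ζ : ℂ => G.indicator (fun x : ℂ × (Fin n → ℂ) => ‖f x.2‖ₑ ^ 2) (ζ, z)) =
            fun _ => 0 := by
          funext ζ
          have : (ζ, z) ∉ G := fun h => hz (hGV ζ z h)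
          rw [Set.indicator_of_notMem this]
        rw [this]
        exact aemeasurable_const
  have haem3 : AEMeasurable (fun z => ‖f z‖ₑ ^ 2) (volume.restrict V) :=
    (hgc.mono hVΩ).aemeasurable hV
  have h8 : ∫⁻ z, ∫⁻ ζ in B, G.indicator (fun x => ‖f x.2‖ₑ ^ 2) (ζ, z) ≤
      A * ∫⁻ z in V, ‖f z‖ₑ ^ 2 := by
    refine (lintegral_mono h7).trans ?_
    rw [lintegral_indicator hV, lintegral_const_mul'' _ haem3]
  -- Conclusion
  have haem4 : AEMeasurable (fun z => ‖f z‖ₑ ^ 2) (volume.restrict S) := by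
    refine (hgc.mono ?_).aemeasurable hS
    intro q hq
    have := hTV q hq 0 h0B
    rw [hT0 q hq] at this
    exact hVΩ this
  rw [lintegral_mul_const'' _ haem4] at h2
  have h9 : (∫⁻ q in S, ‖f q‖ₑ ^ 2) * volume B ≤ 2 * (A * ∫⁻ z in V, ‖f z‖ₑ ^ 2) := by
    refine h2.trans ?_
    rw [h3]
    refine h5.trans ?_
    rw [h6]
    gcongr
  have hpos : 0 < Real.pi * R ^ 2 := by positivity
  rw [hvol] at h9
  have h10 : ENNReal.ofReal (2 / (Real.pi * R ^ 2)) = 2 / ENNReal.ofReal (Real.pi * R ^ 2) := by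
    rw [ENNReal.ofReal_div_of_pos hpos]
    norm_num
  have h11 : (∫⁻ q in S, ‖f q‖ₑ ^ 2) ≤
      (2 * (A * ∫⁻ z in V, ‖f z‖ₑ ^ 2)) / ENNReal.ofReal (Real.pi * R ^ 2) := by
    rw [ENNReal.le_div_iff_mul_le (Or.inl (by simpa using hpos)) (Or.inl ENNReal.ofReal_ne_top)]
    exact h9
  rw [h10]
  refine h11.trans (le_of_eq ?_)
  rw [ENNReal.div_eq_inv_mul, ENNReal.div_eq_inv_mul]
  ring

end Pool.Agent.H301X.BG
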